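import Pool.Agent.W601.SQ.Stm

/-!
# Second extraction, first kind (project SQ, S01449)
-/

set_option autoImplicit false
open Filter Topology

namespace Pool.Agent.W212.SQ

open Pool.Agent.W601.SQ

theorem bdd_of_eventually {f : ℕ → ℤ} {c : ℤ} (h : ∀ᶠ j in atTop, f j = c) :
    ∃ C : ℤ, ∀ j, |f j| ≤ C := by
  obtain ⟨J, hJ⟩ := eventually_atTop.mp h
  refine ⟨|c| + ∑ j ∈ Finset.range J, |f j|, fun j => ?_⟩
  have h1 : 0 ≤ ∑ j ∈ Finset.range J, |f j| := Finset.sum_nonneg fun j _ => abs_nonneg _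
  by_cases hj : j < J
  · have h2 := Finset.single_le_sum (f := fun j => |f j|) (fun j _ => abs_nonneg _)
      (Finset.mem_range.mpr hj)
    have h3 : |f j| ≤ ∑ j ∈ Finset.range J, |f j| := h2
    linarith [abs_nonneg c]
  · rw [hJ j (not_lt.mp hj)]
    linarith

/-- the recursion -/
def ph (N : ℕ → ℕ → ℕ) : ℕ → ℕ
  | 0 => N 0 0
  | j + 1 => max (ph N j + 1) (N (j + 1) (ph N j))

theorem ph_mono (N : ℕ → ℕ → ℕ) : StrictMono (ph N) :=
  strictMono_nat_of_lt_succ fun j => (Nat.lt_succ_self _).trans_le (le_max_left _ _)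

theorem subb1 : S_SUBB1 := by
  intro s hs ⟨a, ha⟩
  set U : Set ℝ := {β | Tendsto (fun j => |s j β|) atTop atTop} with hU
  have hUc : U.Countable := by
    refine Set.Countable.mono ?_ (Set.countable_iUnion fun j => (s j).support.countable_toSet)
    intro β hβ
    have h1 : ∀ᶠ j in atTop, (1 : ℤ) ≤ |s j β| := (tendsto_atTop.mp hβ) 1
    obtain ⟨j, hj⟩ := h1.exists
    rw [Set.mem_iUnion]
    refine ⟨j, ?_⟩
    rw [Finset.mem_coe, Finsupp.mem_support_iff]
    intro h0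
    rw [h0, abs_zero] at hj
    omega
  obtain ⟨e', he'⟩ := hUc.exists_eq_range ⟨a, ha⟩
  let e : ℕ → ℝ := fun k => Nat.casesOn k a e'
  have heU : ∀ k, Tendsto (fun j => |s j (e k)|) atTop atTop := by
    intro k
    cases k with
    | zero => exact ha
    | succ k =>
      have : e' k ∈ U := by rw [he']; exact ⟨k, rfl⟩
      exact this
  have hesurj : ∀ β ∈ U, ∃ k, e k = β := by
    intro β hβ
    rw [he'] at hβ
    obtain ⟨k, hk⟩ := hβ
    exact ⟨k + 1, hk⟩
  -- the bounds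
  have hN : ∀ j m : ℕ, ∃ N : ℕ, ∀ m', N ≤ m' → ∀ k ≤ j, s m' (e k) ≠ 0 ∧
      ∀ i ≤ m, ((j : ℤ) + 64) * |s i (e k)| ≤ |s m' (e k)| := by
    intro j m
    have h1 : ∀ᶠ m' in atTop, ∀ k ∈ Finset.range (j + 1), s m' (e k) ≠ 0 ∧
        ∀ i ∈ Finset.range (m + 1), ((j : ℤ) + 64) * |s i (e k)| ≤ |s m' (e k)| := by
      rw [eventually_all_finset]
      intro k _
      refine Eventually.and ?_ ?_
      · filter_upwards [(tendsto_atTop.mp (heU k)) 1] with m' hm' h0
        rw [h0, abs_zero] at hm'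
        omega
      · rw [eventually_all_finset]
        intro i _
        exact (tendsto_atTop.mp (heU k)) _
    obtain ⟨N, hN⟩ := eventually_atTop.mp h1
    refine ⟨N, fun m' hm' k hk => ?_⟩
    obtain ⟨h2, h3⟩ := hN m' hm' k (Finset.mem_range.mpr (by omega))
    exact ⟨h2, fun i hi => h3 i (Finset.mem_range.mpr (by omega))⟩
  choose N hN using hN
  have hne : ∀ j k : ℕ, k ≤ j → s (ph N j) (e k) ≠ 0 := by
    intro j k hk
    cases j with
    | zero => exact (hN 0 0 (ph N 0) le_rfl k hk).1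
    | succ j => exact (hN (j + 1) (ph N j) (ph N (j + 1)) (le_max_right _ _) k hk).1
  have hbig : ∀ j k i : ℕ, k ≤ j → i < j →
      ((j : ℤ) + 64) * |s (ph N i) (e k)| ≤ |s (ph N j) (e k)| := by
    intro j k i hk hi
    cases j with
    | zero => omega
    | succ j =>
      exact (hN (j + 1) (ph N j) (ph N (j + 1)) (le_max_right _ _) k hk).2 (ph N i)
        ((ph_mono N).monotone (by omega))
  refine ⟨ph N, ph_mono N, ?_, ?_⟩
  · intro β
    by_cases hβ : β ∈ U
    · right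
      obtain ⟨k, rfl⟩ := hesurj β hβ
      intro R
      refine ⟨max k ⌈R⌉₊, fun j hj => ⟨hne j k ((le_max_left _ _).trans hj), fun i hi => ?_⟩⟩
      have h1 := hbig j k i ((le_max_left _ _).trans hj) hi
      have h2 : (((j : ℤ) + 64 : ℤ) : ℝ) * |((s (ph N i) (e k) : ℤ) : ℝ)| ≤
          |((s (ph N j) (e k) : ℤ) : ℝ)| := by
        exact_mod_cast h1
      have h3 : R ≤ (((j : ℤ) + 64 : ℤ) : ℝ) := by
        have h4 : R ≤ (⌈R⌉₊ : ℝ) := Nat.le_ceil R
        have h5 : ((⌈R⌉₊ : ℕ) : ℝ) ≤ (j : ℝ) := Nat.cast_le.mpr ((le_max_right _ _).trans hj)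
        push_cast
        linarith
      exact (mul_le_mul_of_nonneg_right h3 (abs_nonneg _)).trans h2
    · left
      rcases hs β with ⟨c, hc⟩ | h
      · obtain ⟨C, hC⟩ := bdd_of_eventually hc
        exact ⟨C, fun j => hC _⟩
      · exact absurd h hβ
  · refine ⟨e 0, hne 0 0 le_rfl, fun j => ?_⟩
    have h1 := hbig (j + 1) 0 j (Nat.zero_le _) (Nat.lt_succ_self j)
    refine le_trans ?_ h1
    apply mul_le_mul_of_nonneg_right _ (abs_nonneg _)
    push_cast
    omega

end Pool.Agent.W212.SQ
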